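import Pool.Agent.FGT.Stmts

/-!
Row SWP: the swap lemma (a double counting of pairs in a window).
-/

namespace Pool.Agent.FGT.H52

open Pool.Agent.FGT

universe u

theorem count_core (V : Finset ℤ) (P : ℤ → ℤ → Prop) (c : ℝ)
    (h1 : ∀ z ∈ V, ∃ B : Finset ℤ, (B.card : ℝ) ≤ c ∧ ∀ y ∈ V, y ∉ B → P z y)
    (h2 : ∀ z ∈ V, ∀ y ∈ V, z ≠ y → P z y → ¬ P y z) :
    (V.card : ℝ) * V.card - V.card ≤ 2 * (V.card * c) := by
  classical
  set Q : Finset (ℤ × ℤ) := (V ×ˢ V).filter fun p => ¬ P p.1 p.2 with hQ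
  have hQc : (Q.card : ℝ) ≤ V.card * c := by
    have e1 : Q.card = ∑ z ∈ V, (V.filter fun y => ¬ P z y).card := by
      rw [hQ, Finset.card_filter, Finset.sum_product]
      apply Finset.sum_congr rfl
      intro z _
      rw [Finset.card_filter]
    rw [e1]
    push_cast
    have e2 : ∀ z ∈ V, (((V.filter fun y => ¬ P z y).card : ℕ) : ℝ) ≤ c := by
      intro z hz
      obtain ⟨B, hB, hP⟩ := h1 z hz
      have e3 : (V.filter fun y => ¬ P z y) ⊆ B := by
        intro y hy
        rw [Finset.mem_filter] at hy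
        by_contra hyB
        exact hy.2 (hP y hy.1 hyB)
      exact le_trans (by exact_mod_cast Finset.card_le_card e3) hB
    calc ∑ z ∈ V, (((V.filter fun y => ¬ P z y).card : ℕ) : ℝ) ≤ ∑ _z ∈ V, c :=
          Finset.sum_le_sum e2
      _ = V.card * c := by rw [Finset.sum_const, nsmul_eq_mul]
  have hoff : V.offDiag ⊆ Q ∪ Q.image Prod.swap := by
    rintro ⟨z, y⟩ hzy
    rw [Finset.mem_offDiag] at hzy
    obtain ⟨hz, hy, hne⟩ := hzy
    rw [Finset.mem_union]
    by_cases hP : P z y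
    · right
      rw [Finset.mem_image]
      refine ⟨(y, z), ?_, rfl⟩
      rw [hQ, Finset.mem_filter, Finset.mem_product]
      exact ⟨⟨hy, hz⟩, h2 z hz y hy hne hP⟩
    · left
      rw [hQ, Finset.mem_filter, Finset.mem_product]
      exact ⟨⟨hz, hy⟩, hP⟩
  have h3 : V.offDiag.card ≤ Q.card + Q.card :=
    (Finset.card_le_card hoff).trans ((Finset.card_union_le _ _).trans
      (Nat.add_le_add_left Finset.card_image_le _))
  rw [Finset.offDiag_card] at h3
  have h4 : (V.card * V.card : ℕ) ≤ V.card + (Q.card + Q.card) := by omega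
  have h5 : (V.card : ℝ) * V.card ≤ V.card + (Q.card + Q.card) := by exact_mod_cast h4
  linarith

theorem swp : SwpStmt.{u} := by
  classical
  intro I hI V e he hV P ι s Bad hBad hP
  by_contra hno
  push Not at hno
  obtain ⟨N, hN⟩ := exists_nat_gt (2 / e)
  obtain ⟨M, hNM, hM⟩ := hI (insert (ind V) (s.image fun i => ind (Bad i))) (by
    intro f hf
    rw [Finset.mem_insert, Finset.mem_image] at hf
    rcases hf with rfl | ⟨i, _, rfl⟩
    · exact Bdd.ind V
    · exact Bdd.ind (Bad i)) (e / 16) (by positivity) N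
  have hW : (0 : ℝ) < 2 * M + 1 := win_pos M
  set W : ℝ := 2 * M + 1 with hWd
  have hcard : ∀ B : Set ℤ, ((B ∩ Set.Icc (-(M : ℤ)) M).ncard : ℝ) = av (ind B) M * W := by
    intro B
    rw [av_ind, ← hWd]
    field_simp
  have hfin : ∀ B : Set ℤ, (B ∩ Set.Icc (-(M : ℤ)) M).Finite := fun B =>
    (Set.finite_Icc _ _).inter_of_right _
  -- the window part of V
  set VM : Finset ℤ := (hfin V).toFinset with hVM
  have hVMc : (VM.card : ℝ) = av (ind V) M * W := by
    rw [← hcard V, hVM, Set.ncard_eq_toFinset_card _ (hfin V)]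
  have hVMge : 15 / 16 * e * W ≤ VM.card := by
    rw [hVMc]
    have h1 := abs_lt.mp (hM (ind V) (Finset.mem_insert_self _ _))
    unfold ms at hV
    apply mul_le_mul_of_nonneg_right _ hW.le
    linarith [h1.1]
  have hBc : ∀ i ∈ s, (((hfin (Bad i)).toFinset.card : ℕ) : ℝ) ≤ 3 / 16 * e * W := by
    intro i hi
    rw [← Set.ncard_eq_toFinset_card _ (hfin (Bad i)), hcard]
    have h1 := abs_lt.mp (hM (ind (Bad i))
      (Finset.mem_insert_of_mem (Finset.mem_image_of_mem _ hi)))
    have h2 := hBad i hi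
    unfold ms at h2
    apply mul_le_mul_of_nonneg_right _ hW.le
    linarith [h1.2]
  have hmem : ∀ y : ℤ, y ∈ VM ↔ y ∈ V ∧ y ∈ Set.Icc (-(M : ℤ)) M := by
    intro y
    rw [hVM, Set.Finite.mem_toFinset, Set.mem_inter_iff]
  have hcore := count_core VM P (3 / 16 * e * W) (by
    intro z hz
    obtain ⟨i, hi, hiP⟩ := hP z ((hmem z).mp hz).1
    refine ⟨(hfin (Bad i)).toFinset, hBc i hi, fun y hy hyB => hiP y ((hmem y).mp hy).1 ?_⟩
    intro hyi
    exact hyB ((hfin (Bad i)).mem_toFinset.mpr ⟨hyi, ((hmem y).mp hy).2⟩)) (by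
    intro z hz y hy hne hzy
    exact hno z ((hmem z).mp hz).1 y ((hmem y).mp hy).1 hne hzy)
  have hWe : 4 < e * W := by
    have h1 : 2 / e < M := lt_of_lt_of_le hN (by exact_mod_cast hNM)
    rw [div_lt_iff₀ he] at h1
    have h2 : e * W = 2 * (M * e) + e := by rw [hWd]; ring
    rw [h2]
    linarith
  have hpos : (0 : ℝ) < VM.card := by
    have : 0 < 15 / 16 * e * W := by positivity
    linarith
  have h3 : (VM.card : ℝ) - 1 ≤ 2 * (3 / 16 * e * W) := by
    by_contra hlt
    push Not at hlt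
    have h4 : (VM.card : ℝ) * (2 * (3 / 16 * e * W)) < VM.card * ((VM.card : ℝ) - 1) :=
      mul_lt_mul_of_pos_left hlt hpos
    nlinarith
  nlinarith

end Pool.Agent.FGT.H52
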